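import Mathlib.NumberTheory.Padics.RingHoms
import Mathlib.RingTheory.PowerSeries.Inverse
import Mathlib.RingTheory.PowerSeries.NoZeroDivisors
import Mathlib.RingTheory.Nakayama
import Mathlib.RingTheory.Finiteness.Ideal
import Mathlib.Algebra.CharP.Lemmas
import Mathlib.Algebra.CharP.Algebra
import Mathlib.SetTheory.Cardinal.Finite

/-!
# A gap theorem for ideals of the Iwasawa algebra
-/

set_option autoImplicit false

namespace Pool.Agent.X308.Iw

open PowerSeries

variable (p : ℕ) [hp : Fact p.Prime]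

/-- The Iwasawa algebra `ℤ_p⟦X⟧`. -/
abbrev Iwasawa : Type := PowerSeries ℤ_[p]

/-- The element `(1 + X) ^ (p ^ n) - c ^ (p ^ n)`, for instance `(1 + X) ^ (p ^ n) - 1`. -/
noncomputable def omega (c : ℤ_[p]) (n : ℕ) : Iwasawa p := (1 + X) ^ (p ^ n) - C c ^ (p ^ n)

/-- The maximal ideal of the Iwasawa algebra. -/
noncomputable def maxIdeal : Ideal (Iwasawa p) := Ideal.span {(p : Iwasawa p), X}

variable {p}

lemma mem_maxIdeal {g : Iwasawa p} (h : ¬ IsUnit g) : g ∈ maxIdeal p := by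
  rw [isUnit_iff_constantCoeff] at h
  have h1 : constantCoeff g ∈ IsLocalRing.maximalIdeal ℤ_[p] := h
  rw [PadicInt.maximalIdeal_eq_span_p, Ideal.mem_span_singleton] at h1
  obtain ⟨c, hc⟩ := h1
  obtain ⟨g', hg'⟩ : (X : Iwasawa p) ∣ g - C (constantCoeff g) := by
    rw [X_dvd_iff]
    simp
  have h2 : g = (p : Iwasawa p) * C c + X * g' := by
    have : g = C (constantCoeff g) + X * g' := by rw [← hg']; ring
    rw [this, hc, map_mul, map_natCast]
  rw [h2, maxIdeal]
  exact Ideal.add_mem _ (Ideal.mul_mem_right _ _ (Ideal.subset_span (by simp)))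
    (Ideal.mul_mem_right _ _ (Ideal.subset_span (by simp)))

lemma not_isUnit_of_mem {g : Iwasawa p} (h : g ∈ maxIdeal p) : ¬ IsUnit g := by
  intro hu
  rw [maxIdeal, Ideal.mem_span_pair] at h
  obtain ⟨a, b, hab⟩ := h
  rw [isUnit_iff_constantCoeff] at hu
  have h1 : constantCoeff g = constantCoeff a * p := by
    rw [← hab]
    simp
  rw [h1] at hu
  have h2 : IsUnit (p : ℤ_[p]) := isUnit_of_mul_isUnit_right hu
  exact PadicInt.prime_p.not_isUnit h2

lemma omega_mem {c : ℤ_[p]} (hc : (p : ℤ_[p]) ∣ c - 1) (n : ℕ) :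
    omega p c n ∈ maxIdeal p ^ (n + 1) := by
  have hc1 : ∀ m : ℕ, (p : ℤ_[p]) ∣ c ^ m - 1 := fun m =>
    hc.trans (by simpa using sub_dvd_pow_sub_pow c 1 m)
  induction n with
  | zero =>
    rw [zero_add, pow_one, omega, pow_zero, pow_one, pow_one]
    refine mem_maxIdeal ?_
    rw [isUnit_iff_constantCoeff]
    have h1 : constantCoeff ((1 : Iwasawa p) + X - C c) = -(c - 1) := by simp
    rw [h1, IsUnit.neg_iff]
    intro hu
    exact PadicInt.prime_p.not_isUnit (isUnit_of_dvd_unit hc hu)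
  | succ n ih =>
    have h1 : omega p c (n + 1) = omega p c n * ∑ i ∈ Finset.range p,
        ((1 + X) ^ (p ^ n)) ^ i * (C c ^ (p ^ n)) ^ (p - 1 - i) := by
      rw [mul_comm, omega, omega, geom_sum₂_mul, ← pow_mul, ← pow_succ, ← pow_mul, ← pow_succ]
    rw [h1, pow_succ (maxIdeal p) (n + 1)]
    refine Ideal.mul_mem_mul ih (mem_maxIdeal ?_)
    rw [isUnit_iff_constantCoeff]
    have h2 : (p : ℤ_[p]) ∣ constantCoeff (∑ i ∈ Finset.range p,
        (((1 : Iwasawa p) + X) ^ (p ^ n)) ^ i * (C c ^ (p ^ n)) ^ (p - 1 - i)) := by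
      have h3 : constantCoeff (∑ i ∈ Finset.range p,
          (((1 : Iwasawa p) + X) ^ (p ^ n)) ^ i * (C c ^ (p ^ n)) ^ (p - 1 - i)) =
          ∑ i ∈ Finset.range p, (c ^ (p ^ n)) ^ (p - 1 - i) := by
        rw [map_sum]
        refine Finset.sum_congr rfl fun i _ => ?_
        simp
      have h4 : ∑ i ∈ Finset.range p, (c ^ (p ^ n)) ^ (p - 1 - i) =
          ∑ i ∈ Finset.range p, ((c ^ (p ^ n)) ^ (p - 1 - i) - 1) + p := by
        rw [Finset.sum_sub_distrib]
        simp
      rw [h3, h4]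
      refine dvd_add (Finset.dvd_sum fun i _ => ?_) dvd_rfl
      rw [← pow_mul]
      exact hc1 _
    intro hu
    exact PadicInt.prime_p.not_isUnit (isUnit_of_dvd_unit h2 hu)

/-- Reduction modulo `p`. -/
noncomputable def red : Iwasawa p →+* PowerSeries (ZMod p) := PowerSeries.map PadicInt.toZMod

lemma red_eq_zero_iff {g : Iwasawa p} : red g = 0 ↔ (p : Iwasawa p) ∣ g := by
  constructor
  · intro h
    have h1 : ∀ k, ∃ c : ℤ_[p], coeff k g = p * c := by
      intro k
      have h2 : PadicInt.toZMod (coeff k g) = 0 := by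
        have := congrArg (coeff k) h
        rw [red, coeff_map] at this
        simpa using this
      have h3 : coeff k g ∈ RingHom.ker (PadicInt.toZMod : ℤ_[p] →+* ZMod p) := h2
      rw [PadicInt.ker_toZMod, PadicInt.maximalIdeal_eq_span_p, Ideal.mem_span_singleton] at h3
      exact h3
    choose c hc using h1
    refine ⟨PowerSeries.mk c, ?_⟩
    ext k
    rw [hc k]
    have : (p : Iwasawa p) = C (p : ℤ_[p]) := (map_natCast C p).symm
    rw [this, coeff_C_mul, coeff_mk]
  · rintro ⟨h, rfl⟩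
    rw [map_mul, map_natCast]
    have : ((p : ℕ) : PowerSeries (ZMod p)) = 0 := by
      have h1 : ((p : ℕ) : PowerSeries (ZMod p)) = C ((p : ℕ) : ZMod p) := (map_natCast C p).symm
      rw [h1, ZMod.natCast_self, map_zero]
    rw [this, zero_mul]

lemma p_ne_zero : (p : Iwasawa p) ≠ 0 := by
  intro h
  have h1 := congrArg constantCoeff h
  rw [map_natCast, map_zero] at h1
  exact PadicInt.prime_p.ne_zero h1

lemma not_dvd_omega {c : ℤ_[p]} (hc : (p : ℤ_[p]) ∣ c - 1) (n : ℕ) :
    ¬ (p : Iwasawa p) ∣ omega p c n := by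
  rw [← red_eq_zero_iff]
  intro h
  have h1 : PadicInt.toZMod c = 1 := by
    have h2 : c - 1 ∈ RingHom.ker (PadicInt.toZMod : ℤ_[p] →+* ZMod p) := by
      rw [PadicInt.ker_toZMod, PadicInt.maximalIdeal_eq_span_p, Ideal.mem_span_singleton]
      exact hc
    rw [RingHom.mem_ker, map_sub, map_one, sub_eq_zero] at h2
    exact h2
  have h3 : red (omega p c n) = (X : PowerSeries (ZMod p)) ^ (p ^ n) := by
    have hchar : CharP (PowerSeries (ZMod p)) p := by
      refine charP_of_injective_ringHom (f := (C : ZMod p →+* PowerSeries (ZMod p))) ?_ p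
      exact C_injective
    rw [omega, map_sub, map_pow, map_add, map_one, map_pow, red, map_X, map_C, h1, map_one,
      add_pow_char_pow, one_pow, add_sub_cancel_left]
  rw [h3] at h
  exact pow_ne_zero _ X_ne_zero h

/-- If `w` is not divisible by `p` and divides `p ^ N * x` then it divides `x`. -/
lemma dvd_of_dvd_pow_mul {w : Iwasawa p} (hw : ¬ (p : Iwasawa p) ∣ w) (N : ℕ) {x : Iwasawa p}
    (h : w ∣ (p : Iwasawa p) ^ N * x) : w ∣ x := by
  induction N with
  | zero => simpa using h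
  | succ N ih =>
    apply ih
    obtain ⟨y, hy⟩ := h
    have h1 : red w * red y = 0 := by
      rw [← map_mul, ← hy, red_eq_zero_iff, pow_succ', mul_assoc]
      exact dvd_mul_right _ _
    rcases mul_eq_zero.1 h1 with h2 | h2
    · exact absurd (red_eq_zero_iff.1 h2) hw
    · obtain ⟨y', rfl⟩ := red_eq_zero_iff.1 h2
      refine ⟨y', ?_⟩
      refine mul_left_cancel₀ (p_ne_zero (p := p)) ?_
      rw [← mul_assoc, ← pow_succ', hy]
      ring

/-- If the quotient by `(f, w)` is finite then `f` is not a zero divisor modulo `w`. -/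
lemma dvd_of_finite {f w : Iwasawa p} (hw : ¬ (p : Iwasawa p) ∣ w)
    (hfin : Finite (Iwasawa p ⧸ Ideal.span {f, w})) {x : Iwasawa p} (h : w ∣ f * x) : w ∣ x := by
  -- a power of `p` lies in the ideal
  obtain ⟨N, hN⟩ : ∃ N : ℕ, (p : Iwasawa p) ^ N ∈ Ideal.span {f, w} := by
    obtain ⟨a, b, hab, he⟩ := Finite.exists_ne_map_eq_of_infinite
      fun k : ℕ => Ideal.Quotient.mk (Ideal.span {f, w}) ((p : Iwasawa p) ^ k)
    wlog hlt : a < b generalizing a b
    · exact this b a hab.symm he.symm (lt_of_le_of_ne (not_lt.1 hlt) hab.symm)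
    obtain ⟨c, rfl⟩ := Nat.exists_eq_add_of_lt hlt
    refine ⟨a, ?_⟩
    rw [Ideal.Quotient.eq] at he
    have h1 : (p : Iwasawa p) ^ a - (p : Iwasawa p) ^ (a + c + 1) =
        (p : Iwasawa p) ^ a * (1 - (p : Iwasawa p) ^ (c + 1)) := by ring
    have h2 : IsUnit (1 - (p : Iwasawa p) ^ (c + 1)) := by
      by_contra hu
      have h3 := mem_maxIdeal hu
      have h4 : (p : Iwasawa p) ^ (c + 1) ∈ maxIdeal p := by
        rw [pow_succ]
        exact Ideal.mul_mem_left _ _ (Ideal.subset_span (by simp))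
      have h5 : (1 : Iwasawa p) ∈ maxIdeal p := by
        have := Ideal.add_mem _ h3 h4
        simpa using this
      exact not_isUnit_of_mem h5 isUnit_one
    obtain ⟨v, hv⟩ := h2
    have h3 : (p : Iwasawa p) ^ a = ((p : Iwasawa p) ^ a - (p : Iwasawa p) ^ (a + c + 1)) *
        (v⁻¹ : (Iwasawa p)ˣ) := by
      rw [h1, ← hv, mul_assoc, Units.mul_inv, mul_one]
    rw [h3]
    exact Ideal.mul_mem_right _ _ he
  rw [Ideal.mem_span_pair] at hN
  obtain ⟨c, d, hcd⟩ := hN
  refine dvd_of_dvd_pow_mul hw N ?_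
  rw [← hcd, add_mul]
  refine dvd_add ?_ ?_
  · rw [mul_assoc]
    exact dvd_mul_of_dvd_right h _
  · exact dvd_mul_of_dvd_left (dvd_mul_left _ _) _

/-- A nonunit does not divide both a power of `p` and a power of `X`. -/
lemma isUnit_of_dvd {u : Iwasawa p} {i : ℕ} (h1 : u ∣ (p : Iwasawa p) ^ i)
    (h2 : u ∣ (X : Iwasawa p) ^ i) : IsUnit u := by
  obtain ⟨v, hv⟩ := h1
  obtain ⟨w, hw⟩ := h2
  have h3 : (X : Iwasawa p) ^ i ∣ (p : Iwasawa p) ^ i * w := by
    rw [hv, mul_assoc, mul_comm v, ← mul_assoc, ← hw]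
    exact dvd_mul_right _ _
  have h4 : (X : Iwasawa p) ^ i ∣ w := by
    rw [X_pow_dvd_iff] at h3 ⊢
    intro m hm
    have h5 := h3 m hm
    have h6 : (p : Iwasawa p) ^ i = C ((p : ℤ_[p]) ^ i) := by
      rw [map_pow, map_natCast]
    rw [h6, coeff_C_mul] at h5
    rcases mul_eq_zero.1 h5 with h7 | h7
    · exact absurd h7 (pow_ne_zero _ PadicInt.prime_p.ne_zero)
    · exact h7
  obtain ⟨w', rfl⟩ := h4
  have h5 : (X : Iwasawa p) ^ i * (u * w') = (X : Iwasawa p) ^ i * 1 := by
    rw [mul_one]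
    conv_rhs => rw [hw]
    ring
  have h6 := mul_left_cancel₀ (pow_ne_zero i X_ne_zero) h5
  exact IsUnit.of_mul_eq_one _ h6

/-- The ideals `(u) + m ^ i` are different. -/
lemma not_le_sup {u : Iwasawa p} (hu : ¬ IsUnit u) (i : ℕ) :
    ¬ maxIdeal p ^ i ≤ Ideal.span {u} ⊔ maxIdeal p ^ (i + 1) := by
  intro h
  have hfg : (maxIdeal p ^ i).FG := by
    classical
    have h0 : (maxIdeal p).FG := ⟨{(p : Iwasawa p), X}, by simp [maxIdeal]⟩
    exact Ideal.FG.pow (n := i) h0
  have hjac : maxIdeal p ≤ Ideal.jacobson ⊥ := by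
    rw [IsLocalRing.jacobson_eq_maximalIdeal ⊥ bot_ne_top]
    intro g hg
    exact not_isUnit_of_mem hg
  have h1 : maxIdeal p ^ i ≤ Ideal.span {u} :=
    Submodule.le_of_le_smul_of_le_jacobson_bot hfg hjac (by
      rw [smul_eq_mul, ← pow_succ']
      exact h)
  apply hu
  refine isUnit_of_dvd (i := i) ?_ ?_
  · rw [← Ideal.mem_span_singleton]
    exact h1 (Ideal.pow_mem_pow (Ideal.subset_span (by simp)) i)
  · rw [← Ideal.mem_span_singleton]
    exact h1 (Ideal.pow_mem_pow (Ideal.subset_span (by simp)) i)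

/-- A strict inclusion of ideals raises the order of the quotient by the factor `p` at least. -/
lemma card_le_of_lt {I J : Ideal (Iwasawa p)} (hJI : J ≤ I) {x : Iwasawa p} (hx : x ∈ I)
    (hxJ : x ∉ J) [Finite (Iwasawa p ⧸ J)] :
    p * Nat.card (Iwasawa p ⧸ I) ≤ Nat.card (Iwasawa p ⧸ J) := by
  have : Finite (Iwasawa p ⧸ I) := Finite.of_surjective _ (Ideal.Quotient.factor_surjective hJI)
  let F : Fin p × (Iwasawa p ⧸ I) → Iwasawa p ⧸ J := fun c =>
    Ideal.Quotient.mk J (Quotient.out c.2 + (c.1 : ℕ) * x)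
  have hout : ∀ c : Iwasawa p ⧸ I, Ideal.Quotient.mk I (Quotient.out c) = c := fun c =>
    Ideal.Quotient.mk_out c
  have hF : Function.Injective F := by
    rintro ⟨a, c⟩ ⟨a', c'⟩ h
    have h1 : (Quotient.out c + (a : ℕ) * x) - (Quotient.out c' + (a' : ℕ) * x) ∈ J :=
      Ideal.Quotient.eq.1 h
    have h2 : c = c' := by
      rw [← hout c, ← hout c', Ideal.Quotient.eq]
      have h3 := Ideal.sub_mem _ (hJI h1) (Ideal.mul_mem_left _ (((a : ℕ) : Iwasawa p) - (a' : ℕ)) hx)
      convert h3 using 1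
      ring
    subst h2
    have h3 : (((a : ℕ) : Iwasawa p) - (a' : ℕ)) * x ∈ J := by
      convert h1 using 1
      ring
    by_contra hne
    have hne' : (a : ℕ) ≠ (a' : ℕ) := fun h4 => hne (by rw [Fin.ext h4])
    apply hxJ
    have hu : IsUnit ((((a : ℕ) : Iwasawa p) - (a' : ℕ))) := by
      rw [isUnit_iff_constantCoeff, map_sub, map_natCast, map_natCast]
      by_contra hn
      have h5 : ((a : ℕ) : ℤ_[p]) - (a' : ℕ) ∈ IsLocalRing.maximalIdeal ℤ_[p] := hn
      rw [← PadicInt.ker_toZMod, RingHom.mem_ker, map_sub, map_natCast, map_natCast,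
        sub_eq_zero, ZMod.natCast_eq_natCast_iff'] at h5
      rw [Nat.mod_eq_of_lt a.2, Nat.mod_eq_of_lt a'.2] at h5
      exact hne' h5
    obtain ⟨v, hv⟩ := hu
    have h6 := Ideal.mul_mem_left J (v⁻¹ : (Iwasawa p)ˣ) h3
    rwa [← hv, ← mul_assoc, Units.inv_mul, one_mul] at h6
  have h := Nat.card_le_card_of_injective F hF
  rwa [Nat.card_prod, Nat.card_eq_fintype_card (α := Fin p), Fintype.card_fin] at h

/-- **The gap theorem.** -/
theorem gap {f u w : Iwasawa p} (hw : ¬ (p : Iwasawa p) ∣ w) {n : ℕ} (hwn : w ∈ maxIdeal p ^ n)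
    (hu : ¬ IsUnit u) (hfin : Finite (Iwasawa p ⧸ Ideal.span {f * u, w})) :
    p ^ n * Nat.card (Iwasawa p ⧸ Ideal.span {f, w}) ≤
      Nat.card (Iwasawa p ⧸ Ideal.span {f * u, w}) := by
  have hle : Ideal.span {f * u, w} ≤ Ideal.span {f, w} := by
    rw [Ideal.span_le]
    rintro x (rfl | rfl)
    · exact Ideal.mul_mem_right _ _ (Ideal.subset_span (by simp))
    · exact Ideal.subset_span (by simp)
  have hfinf : Finite (Iwasawa p ⧸ Ideal.span {f, w}) :=
    Finite.of_surjective _ (Ideal.Quotient.factor_surjective hle)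
  -- the chain of ideals
  let J : ℕ → Ideal (Iwasawa p) := fun i =>
    Ideal.span {f} * (Ideal.span {u} ⊔ maxIdeal p ^ i) ⊔ Ideal.span {w}
  have hJle : ∀ i, Ideal.span {f * u, w} ≤ J i := by
    intro i
    rw [Ideal.span_le]
    rintro x (rfl | rfl)
    · exact Ideal.mem_sup_left (Ideal.mul_mem_mul (Ideal.mem_span_singleton_self _)
        (Ideal.mem_sup_left (Ideal.mem_span_singleton_self _)))
    · exact Ideal.mem_sup_right (Ideal.mem_span_singleton_self _)
  have hJfin : ∀ i, Finite (Iwasawa p ⧸ J i) := fun i =>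
    Finite.of_surjective _ (Ideal.Quotient.factor_surjective (hJle i))
  have hJ0 : J 0 = Ideal.span {f, w} := by
    change Ideal.span {f} * (Ideal.span {u} ⊔ maxIdeal p ^ 0) ⊔ Ideal.span {w} = _
    rw [pow_zero, Ideal.one_eq_top, sup_top_eq, Ideal.mul_top, ← Ideal.span_union]
    congr 1
  have hstep : ∀ i, i < n → p * Nat.card (Iwasawa p ⧸ J i) ≤ Nat.card (Iwasawa p ⧸ J (i + 1)) := by
    intro i hi
    obtain ⟨y, hy, hy'⟩ := SetLike.not_le_iff_exists.1 (not_le_sup hu i)
    have := hJfin (i + 1)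
    refine card_le_of_lt (x := f * y) ?_ ?_ ?_
    · refine sup_le_sup_right (Ideal.mul_mono_right (sup_le_sup_left ?_ _)) _
      exact Ideal.pow_le_pow_right (Nat.le_succ i)
    · exact Ideal.mem_sup_left (Ideal.mul_mem_mul (Ideal.mem_span_singleton_self _)
        (Ideal.mem_sup_right hy))
    · intro hmem
      obtain ⟨a, ha, b, hb, hab⟩ := Submodule.mem_sup.1 hmem
      rw [Ideal.mem_span_singleton_mul] at ha
      obtain ⟨z, hz, rfl⟩ := ha
      have h1 : w ∣ f * (y - z) := by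
        rw [← Ideal.mem_span_singleton]
        have : f * (y - z) = b := by
          rw [mul_sub, ← hab]
          ring
        rw [this]
        exact hb
      obtain ⟨c, hc⟩ := dvd_of_finite hw hfinf h1
      apply hy'
      have h2 : y = z + w * c := by rw [← hc]; ring
      rw [h2]
      refine Ideal.add_mem _ hz (Ideal.mem_sup_right (Ideal.mul_mem_right _ _ ?_))
      exact Ideal.pow_le_pow_right (by omega) hwn
  have hchain : ∀ i, i ≤ n → p ^ i * Nat.card (Iwasawa p ⧸ J 0) ≤ Nat.card (Iwasawa p ⧸ J i) := by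
    intro i
    induction i with
    | zero => intro _; simp
    | succ i ih =>
      intro hi
      calc p ^ (i + 1) * Nat.card (Iwasawa p ⧸ J 0)
          = p * (p ^ i * Nat.card (Iwasawa p ⧸ J 0)) := by ring
        _ ≤ p * Nat.card (Iwasawa p ⧸ J i) := Nat.mul_le_mul_left _ (ih (by omega))
        _ ≤ _ := hstep i (by omega)
  have h1 := hchain n le_rfl
  rw [hJ0] at h1
  refine h1.trans ?_
  exact Nat.card_le_card_of_surjective _ (Ideal.Quotient.factor_surjective (hJle n))

/-- The criterion for the equality of two ideals. -/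
theorem span_eq_iff {f L w : Iwasawa p} (hfL : f ∣ L) (hw : ¬ (p : Iwasawa p) ∣ w) {n : ℕ}
    (hn : 0 < n) (hwn : w ∈ maxIdeal p ^ n) (hfin : Finite (Iwasawa p ⧸ Ideal.span {L, w})) :
    Ideal.span {f} = Ideal.span {L} ↔
      Nat.card (Iwasawa p ⧸ Ideal.span {L, w}) <
        p ^ n * Nat.card (Iwasawa p ⧸ Ideal.span {f, w}) := by
  constructor
  · intro h
    have h1 : Ideal.span {f, w} = Ideal.span {L, w} := by
      rw [Ideal.span_insert, Ideal.span_insert L, h]
    rw [h1]
    have h2 : 0 < Nat.card (Iwasawa p ⧸ Ideal.span {L, w}) := Nat.card_pos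
    have h3 : 1 < p ^ n := Nat.one_lt_pow hn.ne' hp.out.one_lt
    nlinarith
  · intro h
    obtain ⟨u, rfl⟩ := hfL
    by_contra hne
    have hu : ¬ IsUnit u := by
      intro hu
      exact hne (Ideal.span_singleton_eq_span_singleton.2 ⟨hu.unit, rfl⟩)
    exact absurd (gap hw hwn hu hfin) (not_le.2 h)

end Pool.Agent.X308.Iw
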